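import Pool.Agent.Helper94.KC.GoalsC

/-! # KC: cycles in a set with connected complement (packet IN) -/

set_option autoImplicit false

open scoped Classical

open Finset

namespace Pool.Agent.Helper85.KC

open Pool.Agent.Helper94.KC

section loc

variable {V : Type} [Fintype V] {T : Finset (Finset V)}

/-- if the edge `{u, a}` is not in the boundary of `D`, its triangles are on the same side -/
theorem side (hT : Surf T) {D : Finset (Finset V)} (hD : D ⊆ T) {u a : V} (ha : (sk T).Adj u a)
    (hz : ({u, a} : Finset V) ∉ bd T D) {t t' : Finset V} (ht : t ∈ D) (hut : u ∈ t) (hat : a ∈ t)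
    (ht' : t' ∈ T) (hut' : u ∈ t') (hat' : a ∈ t') : t' ∈ D := by
  by_contra hc
  apply hz
  unfold bd
  rw [mem_filter]
  have hsub : ∀ s : Finset V, ({u, a} : Finset V) ⊆ s ↔ u ∈ s ∧ a ∈ s := by
    intro s
    rw [insert_subset_iff, singleton_subset_iff]
  refine ⟨?_, ?_⟩
  · unfold ed
    rw [mem_filter]
    exact ⟨mem_univ _, card_pair ha.1, t', ht', (hsub t').2 ⟨hut', hat'⟩⟩
  · have h2 := hT.two u a ha
    have h3 : D.filter (fun t => ({u, a} : Finset V) ⊆ t) =
        (T.filter (fun t => u ∈ t ∧ a ∈ t)).filter (fun t => t ∈ D) := by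
      ext s
      simp only [mem_filter, hsub]
      constructor
      · rintro ⟨h, h'⟩
        exact ⟨⟨hD h, h'⟩, h⟩
      · rintro ⟨⟨_, h'⟩, h⟩
        exact ⟨h, h'⟩
    have h4 : ((T.filter (fun t => u ∈ t ∧ a ∈ t)).filter (fun t => t ∈ D)).card = 1 := by
      have h5 : t' ∈ T.filter (fun t => u ∈ t ∧ a ∈ t) := mem_filter.2 ⟨ht', hut', hat'⟩
      have h6 : t ∈ T.filter (fun t => u ∈ t ∧ a ∈ t) := mem_filter.2 ⟨hD ht, hut, hat⟩
      have h7 : (T.filter (fun t => u ∈ t ∧ a ∈ t)).filter (fun t => t ∈ D) ⊆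
          (T.filter (fun t => u ∈ t ∧ a ∈ t)).erase t' := by
        intro s hs
        rw [mem_filter] at hs
        rw [mem_erase]
        refine ⟨?_, hs.1⟩
        rintro rfl
        exact hc hs.2
      have h8 := card_le_card h7
      rw [card_erase_of_mem h5, h2] at h8
      have h9 : 0 < ((T.filter (fun t => u ∈ t ∧ a ∈ t)).filter (fun t => t ∈ D)).card :=
        card_pos.2 ⟨t, mem_filter.2 ⟨h6, ht⟩⟩
      omega
    rw [h3, h4]
    exact odd_one

/-- around a vertex which is on no edge of the boundary -/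
theorem around (hT : Surf T) {D : Finset (Finset V)} (hD : D ⊆ T) (u : V)
    (hz : ∀ e ∈ bd T D, u ∉ e) {t t' : Finset V} (ht : t ∈ D) (hut : u ∈ t) (ht' : t' ∈ T)
    (hut' : u ∈ t') : t' ∈ D := by
  have hz' : ∀ a, ({u, a} : Finset V) ∉ bd T D := fun a h => hz _ h (mem_insert_self _ _)
  -- another vertex of a triangle
  have other : ∀ s ∈ T, u ∈ s → ∃ a, a ∈ s ∧ (sk T).Adj u a := by
    intro s hs hus
    have h1 := hT.card s hs
    obtain ⟨a, ha, hau⟩ := exists_mem_ne (by omega : 1 < s.card) u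
    exact ⟨a, ha, hau.symm, s, hs, hus, ha⟩
  obtain ⟨a, ha, hua⟩ := other t (hD ht) hut
  obtain ⟨b, hb, hub⟩ := other t' ht' hut'
  have hreach := hT.link u a b hua hub
  have key : ∀ c, (lk T u).Reachable a c → c = a ∨ ∃ s ∈ D, u ∈ s ∧ c ∈ s ∧ (sk T).Adj u c := by
    intro c hc
    rw [SimpleGraph.reachable_iff_reflTransGen] at hc
    induction hc with
    | refl => exact Or.inl rfl
    | tail _ h ih =>
      rename_i p q _
      obtain ⟨hpq, hpu, hqu, s, hs, hus, hps, hqs⟩ := h
      refine Or.inr ⟨s, ?_, hus, hqs, hqu.symm, s, hs, hus, hqs⟩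
      have hup : (sk T).Adj u p := ⟨hpu.symm, s, hs, hus, hps⟩
      rcases ih with rfl | ⟨r, hr, hur, hpr, -⟩
      · exact side hT hD hup (hz' p) ht hut ha hs hus hps
      · exact side hT hD hup (hz' p) hr hur hpr hs hus hps
  rcases key b hreach with rfl | ⟨s, hs, hus, hbs, -⟩
  · exact side hT hD hub (hz' b) ht hut ha ht' hut' hb
  · exact side hT hD hub (hz' b) hs hus hbs ht' hut' hb

end loc

theorem inn (hEV : StmtEV) : StmtIN := by
  intro V _ T hT W hW hcon z hz hB
  obtain ⟨D, hD, rfl⟩ := hB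
  obtain ⟨e1, -, -, -, e5, -⟩ := hEV V T hT
  have hzU : ∀ u, u ∉ W → ∀ e ∈ bd T D, u ∉ e := by
    intro u hu e he hue
    have h1 := hz he
    unfold edW at h1
    rw [mem_filter] at h1
    exact hu (h1.2 hue)
  obtain ⟨u0, hu0⟩ : ∃ u0, u0 ∉ W := by
    by_contra hc
    push Not at hc
    exact hW (eq_univ_of_forall hc)
  have prop : ∀ u, u ∉ W → (gr (edW T (univ \ W))).Reachable u0 u →
      ((∃ t ∈ D, u0 ∈ t) ↔ (∃ t ∈ D, u ∈ t)) := by
    intro u _ hr
    rw [SimpleGraph.reachable_iff_reflTransGen] at hr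
    induction hr with
    | refl => exact Iff.rfl
    | tail _ h ih =>
      rename_i p q _ _
      obtain ⟨hpq, hm⟩ := h
      unfold edW at hm
      rw [mem_filter] at hm
      obtain ⟨hm1, hm2⟩ := hm
      have hp : p ∉ W := by
        have := hm2 (mem_insert_self p {q})
        rw [mem_sdiff] at this
        exact this.2
      have hq : q ∉ W := by
        have := hm2 (mem_insert_of_mem (mem_singleton_self q))
        rw [mem_sdiff] at this
        exact this.2
      unfold ed at hm1
      rw [mem_filter] at hm1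
      obtain ⟨-, -, s, hs, hss⟩ := hm1
      have hps : p ∈ s := hss (mem_insert_self p {q})
      have hqs : q ∈ s := hss (mem_insert_of_mem (mem_singleton_self q))
      refine (ih hp).trans ⟨?_, ?_⟩
      · rintro ⟨t, ht, hpt⟩
        exact ⟨s, around hT hD p (hzU p hp) ht hpt hs hps, hqs⟩
      · rintro ⟨t, ht, hqt⟩
        exact ⟨s, around hT hD q (hzU q hq) ht hqt hs hqs, hps⟩
  have hmemU : ∀ u, u ∉ W → u ∈ univ \ W := fun u hu => mem_sdiff.2 ⟨mem_univ _, hu⟩
  by_cases h0 : ∃ t ∈ D, u0 ∈ t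
  · refine ⟨T \ D, ?_, ?_⟩
    · intro t ht
      rw [mem_sdiff] at ht
      unfold trW
      rw [mem_filter]
      refine ⟨ht.1, fun x hx => ?_⟩
      by_contra hxW
      obtain ⟨s, hs, hxs⟩ := (prop x hxW (hcon u0 (hmemU u0 hu0) x (hmemU x hxW))).1 h0
      exact ht.2 (around hT hD x (hzU x hxW) hs hxs ht.1 hx)
    · have h1 : T \ D = symmDiff T D := by
        ext s
        rw [mem_symmDiff, mem_sdiff]
        constructor
        · intro h
          exact Or.inl h
        · rintro (h | h)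
          · exact h
          · exact absurd (hD h.1) h.2
      rw [h1, e1, e5]
      ext s
      rw [mem_symmDiff]
      simp
  · refine ⟨D, fun t ht => ?_, rfl⟩
    unfold trW
    rw [mem_filter]
    refine ⟨hD ht, fun x hx => ?_⟩
    by_contra hxW
    exact h0 ((prop x hxW (hcon u0 (hmemU u0 hu0) x (hmemU x hxW))).2 ⟨t, ht, hx⟩)

end Pool.Agent.Helper85.KC
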